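import Pool.Agent.Helper41.LD3.Defs
import Pool.Agent.Helper34.LD2.WA2
import Pool.Agent.Helper5.LD.GA
import Pool.Agent.Helper65.LD.Cov
import Pool.Agent.Helper67.LD2.Lin

/-!
# LD3, block PC3: pair correlations of two linear sequences
-/

set_option autoImplicit false
set_option linter.unusedVariables false

namespace Pool.Agent.Helper65.LD3

open Set MeasureTheory
open Pool.Agent.Helper41.LD3
open Pool.Agent.Helper41.LD (av var ind haar idx)
open Pool.Agent.Helper41.LD2 (A M W Pot NB Wd EqA)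
open Pool.Agent.Helper34.LD2 (A_le_one A_le M_tail M_le A_children)
open Pool.Agent.Helper34.LD (int_haar_le)
open Pool.Agent.Helper5.LD (pair_piece pair_same)
open Pool.Agent.Helper65.LD (cov_gen)
open Pool.Agent.Helper67.LD2 (pair_equi_gen)

variable {β : ℝ} {y c : ℕ → ℝ}

theorem geo_grow (hy : Geo y β) (n e : ℕ) : β ^ e * y n ≤ y (n + e) := by
  induction e with
  | zero => simp
  | succ e ih =>
    have h1 := hy.grow (n + e)
    have h2 : 0 < β := lt_trans one_pos hy.hβ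
    calc β ^ (e + 1) * y n = β * (β ^ e * y n) := by ring
      _ ≤ β * y (n + e) := mul_le_mul_of_nonneg_left ih h2.le
      _ ≤ y (n + (e + 1)) := h1

theorem geo_mono (hy : Geo y β) {i j : ℕ} (h : i ≤ j) : y i ≤ y j := by
  obtain ⟨e, rfl⟩ := Nat.exists_eq_add_of_le h
  have h1 := geo_grow hy i e
  have h2 : 1 ≤ β ^ e := one_le_pow₀ hy.hβ.le
  have h3 := hy.pos i
  nlinarith

theorem lin_meas (y c : ℕ → ℝ) (j : ℕ) : Measurable (lin y c j) := by
  unfold lin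
  fun_prop

/-- windows of a linear sequence (no control of the indicators) -/
theorem wd_lin (hy : Geo y β) {n : ℕ} {a ℓ : ℝ} (hℓ : 0 < ℓ) (hn : 1 ≤ y n * ℓ) : Wd (lin y c) β n n a ℓ := by
  refine ⟨hℓ, lin_meas y c, fun k i j hj => ?_, fun k i j h1 h2 => absurd h1 (by omega)⟩
  obtain ⟨e, rfl⟩ := Nat.exists_eq_add_of_le hj
  rw [Nat.add_sub_cancel_left]
  have hp := hy.pos (n + e)
  have hβ0 : 0 < β := lt_trans one_pos hy.hβ
  have h1 := int_haar_le hp k i (c (n + e)) a (a + ℓ) (by linarith)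
  refine (show |∫ x in a..(a + ℓ), haar k i (lin y c (n + e) x)| ≤ _ from h1).trans ?_
  have h2 := geo_grow hy n e
  rw [div_le_iff₀ hp, inv_pow, mul_assoc, mul_assoc]
  refine le_mul_of_one_le_right (by positivity) ?_
  rw [inv_mul_eq_div, one_le_div (by positivity)]
  calc β ^ e = β ^ e * 1 := (mul_one _).symm
    _ ≤ β ^ e * (y n * ℓ) := mul_le_mul_of_nonneg_left hn (by positivity)
    _ = β ^ e * y n * ℓ := by ring
    _ ≤ y (n + e) * ℓ := mul_le_mul_of_nonneg_right h2 hℓ.le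
    _ = ℓ * y (n + e) := mul_comm _ _

/-- two frequencies far apart or equidistributed -/
theorem corr_ne {K Q₀ : ℕ} {ε a ℓ s f : ℝ} (hs : 0 < s) (hf : 0 < f) (hℓ : 0 < ℓ) (hε0 : 0 ≤ ε) (hε : ε ≤ (1 / 2) ^ (12 * K))
    (hf1 : ((Q₀ : ℝ) + 1) * 2 ^ (24 * K) ≤ f * ℓ)
    (hnear : (1 / 2 : ℝ) ^ (12 * K) < s / f → s / f < 2 ^ (12 * K) → (s ≤ f ∧ EqA (f / s) Q₀ ε) ∨ (f ≤ s ∧ EqA (s / f) Q₀ ε))
    (k i k' i' : ℕ) (d d' : ℝ) :
    |av (fun x => haar k i (s * x + d) * haar k' i' (f * x + d')) a ℓ| ≤ 6 * (1 / 2) ^ (12 * K) := by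
  set w : ℝ := (1 / 2) ^ (12 * K) with hw
  set Z : ℝ := 2 ^ (12 * K) with hZ
  have hw0 : 0 < w := by positivity
  have hZ0 : 0 < Z := by positivity
  have hZ1 : 1 ≤ Z := one_le_pow₀ (by norm_num)
  have hwZ : w * Z = 1 := by rw [hw, hZ, ← mul_pow]; norm_num
  have hZZ : (2 : ℝ) ^ (24 * K) = Z * Z := by rw [hZ, ← pow_add]; congr 1; ring
  have hQ : (0 : ℝ) ≤ Q₀ := Nat.cast_nonneg _
  have hfZ : ((Q₀ : ℝ) + 1) * Z * Z ≤ f * ℓ := by rw [mul_assoc, ← hZZ]; exact hf1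
  have hQ1 : (1 : ℝ) ≤ (Q₀ : ℝ) + 1 := by linarith
  have hfl : Z ≤ f * ℓ := by
    refine le_trans ?_ hfZ
    calc Z = 1 * 1 * Z := by ring
      _ ≤ ((Q₀ : ℝ) + 1) * Z * Z := by gcongr
  have hcomm : ∀ x : ℝ, haar k i (s * x + d) * haar k' i' (f * x + d') = haar k' i' (f * x + d') * haar k i (s * x + d) :=
    fun x => mul_comm _ _
  -- far apart
  have far : ∀ (k i k' i' : ℕ) (d d' : ℝ) {s f : ℝ}, 0 < s → 0 < f → Z ≤ f * ℓ → s ≤ w * f →
      |∫ x in a..(a + ℓ), haar k i (s * x + d) * haar k' i' (f * x + d')| ≤ 6 * w * ℓ := by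
    intro k i k' i' d d' s f hs hf hfl hsf
    have h1 := pair_piece hf hs k i k' i' d' d a (a + ℓ) (by linarith)
    rw [add_sub_cancel_left] at h1
    refine h1.trans ?_
    rw [div_le_iff₀ hf]
    have h2 : s * ℓ ≤ w * ℓ * f := by
      calc s * ℓ ≤ w * f * ℓ := mul_le_mul_of_nonneg_right hsf hℓ.le
        _ = _ := by ring
    have h3 : 1 ≤ w * ℓ * f := by
      calc (1 : ℝ) = w * Z := hwZ.symm
        _ ≤ w * (f * ℓ) := mul_le_mul_of_nonneg_left hfl hw0.le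
        _ = _ := by ring
    nlinarith
  -- near
  have near : ∀ (k i k' i' : ℕ) (d d' : ℝ) {s f : ℝ}, 0 < s → 0 < f → ((Q₀ : ℝ) + 1) * Z ≤ s * ℓ → EqA (f / s) Q₀ ε →
      |∫ x in a..(a + ℓ), haar k i (s * x + d) * haar k' i' (f * x + d')| ≤ 6 * w * ℓ := by
    intro k i k' i' d d' s f hs hf hsl hE
    have h0 : (Q₀ : ℝ) + 1 ≤ s * ℓ := by
      refine le_trans ?_ hsl
      exact le_mul_of_one_le_right (by linarith) hZ1
    have hZs : Z ≤ s * ℓ := by
      refine le_trans ?_ hsl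
      exact le_mul_of_one_le_left hZ0.le hQ1
    have h1 := pair_equi_gen hE hε0 hs k i k' i' d' d a (a + ℓ) (by rw [add_sub_cancel_left]; exact h0)
    rw [add_sub_cancel_left, mul_div_cancel₀ _ hs.ne'] at h1
    refine h1.trans ?_
    have h2 : 1 / s ≤ w * ℓ := by
      rw [div_le_iff₀ hs]
      calc (1 : ℝ) = w * Z := hwZ.symm
        _ ≤ w * (s * ℓ) := mul_le_mul_of_nonneg_left hZs hw0.le
        _ = _ := by ring
    have h3 : 2 * ε * ℓ ≤ 2 * w * ℓ := by gcongr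
    have h4 : 0 < w * ℓ := by positivity
    linarith
  have key : |∫ x in a..(a + ℓ), haar k i (s * x + d) * haar k' i' (f * x + d')| ≤ 6 * w * ℓ := by
    rcases le_or_gt (s / f) w with h1 | h1
    · rw [div_le_iff₀ hf] at h1
      exact far k i k' i' d d' hs hf hfl h1
    · rcases le_or_gt Z (s / f) with h2 | h2
      · rw [le_div_iff₀ hf] at h2
        rw [intervalIntegral.integral_congr (g := fun x => haar k' i' (f * x + d') * haar k i (s * x + d)) (fun x _ => hcomm x)]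
        refine far k' i' k i d' d hf hs ?_ ?_
        · refine hfl.trans (mul_le_mul_of_nonneg_right ?_ hℓ.le)
          calc f = 1 * f := (one_mul _).symm
            _ ≤ Z * f := mul_le_mul_of_nonneg_right hZ1 hf.le
            _ ≤ s := h2
        · calc f = w * Z * f := by rw [hwZ, one_mul]
            _ = w * (Z * f) := by ring
            _ ≤ w * s := mul_le_mul_of_nonneg_left h2 hw0.le
      · rcases hnear h1 h2 with ⟨h3, h4⟩ | ⟨h3, h4⟩
        · refine near k i k' i' d d' hs hf ?_ h4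
          rw [lt_div_iff₀ hf] at h1
          have h5 : f ≤ Z * s := by
            calc f = w * Z * f := by rw [hwZ, one_mul]
              _ = Z * (w * f) := by ring
              _ ≤ Z * s := mul_le_mul_of_nonneg_left h1.le hZ0.le
          have h6 : ((Q₀ : ℝ) + 1) * Z * Z ≤ Z * s * ℓ := hfZ.trans (mul_le_mul_of_nonneg_right h5 hℓ.le)
          have h7 : Z * (((Q₀ : ℝ) + 1) * Z) ≤ Z * (s * ℓ) := by
            calc Z * (((Q₀ : ℝ) + 1) * Z) = ((Q₀ : ℝ) + 1) * Z * Z := by ring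
              _ ≤ Z * s * ℓ := h6
              _ = Z * (s * ℓ) := by ring
          exact le_of_mul_le_mul_left h7 hZ0
        · rw [intervalIntegral.integral_congr (g := fun x => haar k' i' (f * x + d') * haar k i (s * x + d)) (fun x _ => hcomm x)]
          refine near k' i' k i d' d hf hs ?_ h4
          refine le_trans ?_ hfZ
          exact le_mul_of_one_le_right (by positivity) hZ1
  rw [av, abs_div, abs_of_pos hℓ, div_le_iff₀ hℓ]
  exact key

/-- equal frequencies -/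
theorem corr_eq {K Q₀ : ℕ} {a ℓ f : ℝ} (hf : 0 < f) (hℓ : 0 < ℓ)
    (hf1 : ((Q₀ : ℝ) + 1) * 2 ^ (24 * K) ≤ f * ℓ) {k i k' i' : ℕ} (hi : i < 2 ^ k) (hi' : i' < 2 ^ k') (d : ℝ) :
    |av (fun x => haar k i (f * x + d) * haar k' i' (f * x + d)) a ℓ - (if k = k' ∧ i = i' then (1 / 2) ^ k else 0)| ≤
      6 * (1 / 2) ^ (12 * K) := by
  have h2 := pair_same hf hi hi' d a (a + ℓ) (by linarith)
  have h3 : av (fun x => haar k i (f * x + d) * haar k' i' (f * x + d)) a ℓ - (if k = k' ∧ i = i' then (1 / 2) ^ k else 0) =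
      ((∫ x in a..(a + ℓ), haar k i (f * x + d) * haar k' i' (f * x + d)) -
        (a + ℓ - a) * (if k = k' ∧ i = i' then (1 / 2) ^ k else 0)) / ℓ := by
    rw [av, add_sub_cancel_left, sub_div, mul_div_cancel_left₀ _ hℓ.ne']
  rw [h3, abs_div, abs_of_pos hℓ, div_le_iff₀ hℓ]
  refine h2.trans ?_
  have hwZ : (1 / 2 : ℝ) ^ (12 * K) * 2 ^ (12 * K) = 1 := by rw [← mul_pow]; norm_num
  have hQ : (0 : ℝ) ≤ Q₀ := Nat.cast_nonneg _
  have h5 : (2 : ℝ) ^ (12 * K) ≤ f * ℓ := by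
    refine le_trans ?_ hf1
    calc (2 : ℝ) ^ (12 * K) ≤ 2 ^ (24 * K) := pow_le_pow_right₀ (by norm_num) (by omega)
      _ ≤ ((Q₀ : ℝ) + 1) * 2 ^ (24 * K) := le_mul_of_one_le_left (by positivity) (by linarith)
  rw [div_le_iff₀ hf]
  have h6 : 1 ≤ (1 / 2 : ℝ) ^ (12 * K) * (f * ℓ) := by
    calc (1 : ℝ) = (1 / 2 : ℝ) ^ (12 * K) * 2 ^ (12 * K) := hwZ.symm
      _ ≤ _ := mul_le_mul_of_nonneg_left h5 (by positivity)
  nlinarith

/-- the general statement -/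
theorem pair_gen {y' c' : ℕ → ℝ} (hy : Geo y β) (hy' : ∀ j, 0 < y' j) {K n L r t Q₀ B : ℕ} {a ℓ : ℝ} (hK : 1 ≤ K) (hC : β / (β - 1) ≤ K)
    (hr : (2 : ℝ) ^ (12 * K) ≤ β ^ r) (hℓ : 0 < ℓ) (hn : 1 ≤ y n * ℓ) (hB : (2 : ℝ) ^ (12 * K) ≤ B) (hn' : 1 ≤ y (n + L) * (ℓ / B))
    (hnL : n + L + r ≤ 2 ^ (2 * K)) (ht1 : ((Q₀ : ℝ) + 1) * 2 ^ (24 * K) ≤ y' t * ℓ)
    (ht2 : y' t * (ℓ / B) ≤ 2 * (1 / 2) ^ (12 * K)) {k i k' i' : ℕ} (hk' : k' < K) (δ : ℕ → ℝ)
    (hδ : ∀ j < n + L + r, |av (fun x => haar k i (y j * x + c j) * haar k' i' (y' t * x + c' t)) a ℓ - δ j| ≤ 6 * (1 / 2) ^ (12 * K)) :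
    |(∑ b ∈ Finset.range B, (M (lin y c) k i (a + b * (ℓ / B)) (ℓ / B) - M (lin y c) k i a ℓ) *
        A (lin y' c') k' i' t (a + b * (ℓ / B)) (ℓ / B)) / B - ∑ j ∈ Finset.range (n + L + r), δ j| ≤ (1 / 2) ^ (4 * K) := by
  have hβ := hy.hβ
  have hβ0 : 0 < β := lt_trans one_pos hβ
  have hBpos : (0 : ℝ) < B := lt_of_lt_of_le (by positivity) hB
  have hB1 : 1 ≤ B := by exact_mod_cast hBpos
  have hℓB : 0 < ℓ / B := by positivity
  have hWd : Wd (lin y c) β n n a ℓ := wd_lin hy hℓ hn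
  have hchild : ∀ b : ℕ, Wd (lin y c) β (n + L) (n + L) (a + b * (ℓ / B)) (ℓ / B) := fun b => wd_lin hy hℓB hn'
  have hmeas : ∀ j, Measurable (lin y c j) := lin_meas y c
  have hmeas' : ∀ j, Measurable (lin y' c' j) := lin_meas y' c'
  set m : ℕ := n + L + r with hm
  set w : ℝ := (1 / 2) ^ (12 * K) with hw
  have hw0 : 0 < w := by positivity
  set z : ℝ := 2 ^ K with hz
  have hz2 : 2 ≤ z := by
    calc (2 : ℝ) = 2 ^ 1 := by norm_num
      _ ≤ 2 ^ K := pow_le_pow_right₀ (by norm_num) hK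
  have hz0 : 0 < z := by linarith
  have hKz : (K : ℝ) ≤ z := by
    have : K < 2 ^ K := Nat.lt_two_pow_self
    have h2 : ((K : ℕ) : ℝ) < ((2 ^ K : ℕ) : ℝ) := by exact_mod_cast this
    push_cast at h2
    exact h2.le
  have hwz : w * z ^ 12 = 1 := by
    rw [hw, hz, ← pow_mul, mul_comm K 12, ← mul_pow]
    norm_num
  have hwZ : w * 2 ^ (12 * K) = 1 := by rw [hw, ← mul_pow]; norm_num
  have hw1 : 1 / (B : ℝ) ≤ w := by
    rw [div_le_iff₀ hBpos]
    calc (1 : ℝ) = w * 2 ^ (12 * K) := hwZ.symm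
      _ ≤ w * B := mul_le_mul_of_nonneg_left hB hw0.le
  -- the covariance error
  set e0 : ℝ := 2 * (2 ^ (k' + 1) * (lin y' c' t (a + ℓ) - lin y' c' t a) + 1) / B with he0
  have hlen : lin y' c' t (a + ℓ) - lin y' c' t a = y' t * ℓ := by
    unfold lin
    ring
  have he0b : e0 ≤ 10 * z * w := by
    have h1 : (2 : ℝ) ^ (k' + 1) ≤ z := pow_le_pow_right₀ (by norm_num) hk'
    have h2 : e0 = 2 * (2 ^ (k' + 1) * (y' t * (ℓ / B))) + 2 * (1 / B) := by
      rw [he0, hlen]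
      field_simp
    have h3 : 2 ^ (k' + 1) * (y' t * (ℓ / B)) ≤ z * (2 * w) :=
      mul_le_mul h1 ht2 (by have := hy' t; positivity) (by positivity)
    rw [h2]
    nlinarith [mul_le_mul_of_nonneg_right hz2 hw0.le]
  have hAt : ∀ b : ℕ, |A (lin y' c') k' i' t (a + b * (ℓ / B)) (ℓ / B)| ≤ 1 := fun b => A_le_one hmeas' k' i' t _ hℓB
  have hsplit : (∑ b ∈ Finset.range B, (M (lin y c) k i (a + b * (ℓ / B)) (ℓ / B) - M (lin y c) k i a ℓ) *
        A (lin y' c') k' i' t (a + b * (ℓ / B)) (ℓ / B)) / B =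
      (∑ j ∈ Finset.range m, (∑ b ∈ Finset.range B, A (lin y c) k i j (a + b * (ℓ / B)) (ℓ / B) *
        A (lin y' c') k' i' t (a + b * (ℓ / B)) (ℓ / B)) / B) +
      (∑ b ∈ Finset.range B, (M (lin y c) k i (a + b * (ℓ / B)) (ℓ / B) -
        ∑ j ∈ Finset.range m, A (lin y c) k i j (a + b * (ℓ / B)) (ℓ / B)) *
          A (lin y' c') k' i' t (a + b * (ℓ / B)) (ℓ / B)) / B -
      M (lin y c) k i a ℓ * A (lin y' c') k' i' t a ℓ := by
    have h1 := A_children hmeas' k' i' t a hℓ hB1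
    have h2 : M (lin y c) k i a ℓ * A (lin y' c') k' i' t a ℓ =
        (∑ b ∈ Finset.range B, M (lin y c) k i a ℓ * A (lin y' c') k' i' t (a + b * (ℓ / B)) (ℓ / B)) / B := by
      rw [← Finset.mul_sum, h1]
      field_simp
    rw [h2, ← Finset.sum_div, ← add_div, ← sub_div, Finset.sum_comm, ← Finset.sum_add_distrib, ← Finset.sum_sub_distrib]
    congr 1
    refine Finset.sum_congr rfl (fun b _ => ?_)
    rw [← Finset.sum_mul]
    ring
  have hC0 : 0 < β / (β - 1) := div_pos hβ0 (by linarith)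
  have hR : |(∑ b ∈ Finset.range B, (M (lin y c) k i (a + b * (ℓ / B)) (ℓ / B) -
        ∑ j ∈ Finset.range m, A (lin y c) k i j (a + b * (ℓ / B)) (ℓ / B)) *
          A (lin y' c') k' i' t (a + b * (ℓ / B)) (ℓ / B)) / B| ≤ K * w := by
    rw [abs_div, abs_of_pos hBpos, div_le_iff₀ hBpos]
    refine (Finset.abs_sum_le_sum_abs _ _).trans ?_
    calc ∑ b ∈ Finset.range B, |(M (lin y c) k i (a + b * (ℓ / B)) (ℓ / B) -
        ∑ j ∈ Finset.range m, A (lin y c) k i j (a + b * (ℓ / B)) (ℓ / B)) * A (lin y' c') k' i' t (a + b * (ℓ / B)) (ℓ / B)| ≤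
          ∑ b ∈ Finset.range B, (K : ℝ) * w := by
          refine Finset.sum_le_sum (fun b _ => ?_)
          rw [abs_mul]
          have h1 := M_tail hβ (hchild b) k i (m' := m) (by omega)
          have h2 : (1 / 2 : ℝ) ^ k * β⁻¹ ^ (m - (n + L)) * (β / (β - 1)) ≤ K * w := by
            have h3 : m - (n + L) = r := by omega
            rw [h3]
            have h4 : β⁻¹ ^ r ≤ w := by
              rw [inv_pow, ← one_div, div_le_iff₀ (by positivity)]
              calc (1 : ℝ) = w * 2 ^ (12 * K) := hwZ.symm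
                _ ≤ w * β ^ r := mul_le_mul_of_nonneg_left hr hw0.le
            have h5 : (1 / 2 : ℝ) ^ k ≤ 1 := pow_le_one₀ (by norm_num) (by norm_num)
            calc (1 / 2 : ℝ) ^ k * β⁻¹ ^ r * (β / (β - 1)) ≤ 1 * w * K := by gcongr
              _ = K * w := by ring
          calc |M (lin y c) k i (a + b * (ℓ / B)) (ℓ / B) - ∑ j ∈ Finset.range m, A (lin y c) k i j (a + b * (ℓ / B)) (ℓ / B)| *
                |A (lin y' c') k' i' t (a + b * (ℓ / B)) (ℓ / B)| ≤ (K * w) * 1 :=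
                mul_le_mul (h1.trans h2) (hAt b) (abs_nonneg _) (by positivity)
            _ = K * w := mul_one _
      _ = K * w * B := by rw [Finset.sum_const, Finset.card_range, nsmul_eq_mul]; ring
  have hmz : (m : ℝ) ≤ z ^ 2 := by
    have h2 : ((m : ℕ) : ℝ) ≤ ((2 ^ (2 * K) : ℕ) : ℝ) := by exact_mod_cast hnL
    push_cast at h2
    rw [hz, ← pow_mul, mul_comm K 2]
    exact h2
  have hMA : |M (lin y c) k i a ℓ * A (lin y' c') k' i' t a ℓ| ≤ (z ^ 2 + K) * w := by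
    rw [abs_mul]
    have h1 := M_le hβ hWd k i
    have h2 : |A (lin y' c') k' i' t a ℓ| ≤ w := by
      have h3 := int_haar_le (hy' t) k' i' (c' t) a (a + ℓ) (by linarith)
      rw [A, av, abs_div, abs_of_pos hℓ, div_le_iff₀ hℓ]
      refine (show |∫ x in a..(a + ℓ), haar k' i' (lin y' c' t x)| ≤ _ from h3).trans ?_
      rw [div_le_iff₀ (hy' t)]
      have h5 : (1 / 2 : ℝ) ^ k' ≤ 1 := pow_le_one₀ (by norm_num) (by norm_num)
      refine h5.trans ?_
      have h6 : (2 : ℝ) ^ (12 * K) ≤ y' t * ℓ := by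
        refine le_trans ?_ ht1
        have hQ : (0 : ℝ) ≤ Q₀ := Nat.cast_nonneg _
        calc (2 : ℝ) ^ (12 * K) ≤ 2 ^ (24 * K) := pow_le_pow_right₀ (by norm_num) (by omega)
          _ ≤ ((Q₀ : ℝ) + 1) * 2 ^ (24 * K) := le_mul_of_one_le_left (by positivity) (by linarith)
      calc (1 : ℝ) = w * 2 ^ (12 * K) := hwZ.symm
        _ ≤ w * (y' t * ℓ) := mul_le_mul_of_nonneg_left h6 hw0.le
        _ = _ := by ring
    have h6 : (n : ℝ) ≤ m := by
      have : n ≤ m := by omega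
      exact_mod_cast this
    exact mul_le_mul (by linarith) h2 (abs_nonneg _) (by positivity)
  -- the main sum
  have hmain : |(∑ j ∈ Finset.range m, (∑ b ∈ Finset.range B, A (lin y c) k i j (a + b * (ℓ / B)) (ℓ / B) *
        A (lin y' c') k' i' t (a + b * (ℓ / B)) (ℓ / B)) / B) - ∑ j ∈ Finset.range m, δ j| ≤ m * (10 * z * w + 6 * w) := by
    rw [← Finset.sum_sub_distrib]
    refine (Finset.abs_sum_le_sum_abs _ _).trans ?_
    calc ∑ j ∈ Finset.range m, |(∑ b ∈ Finset.range B, A (lin y c) k i j (a + b * (ℓ / B)) (ℓ / B) *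
        A (lin y' c') k' i' t (a + b * (ℓ / B)) (ℓ / B)) / B - δ j| ≤
          ∑ j ∈ Finset.range m, (10 * z * w + 6 * w) := by
          refine Finset.sum_le_sum (fun j hj => ?_)
          have hjm := Finset.mem_range.1 hj
          have hmono : MonotoneOn (lin y' c' t) (Icc a (a + ℓ)) := by
            intro x _ x' _ hxx
            unfold lin
            have := mul_le_mul_of_nonneg_left hxx (hy' t).le
            linarith
          have h3 := cov_gen (F := fun x => haar k i (lin y c j x)) (w := lin y' c' t)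
            ((Pool.Agent.Helper34.LD.measurable_haar k i).comp (hmeas j))
            (fun x => Pool.Agent.Helper34.LD.haar_abs_le k i _) (hmeas' t) k' i' a hℓ hmono hB1
          rw [← he0] at h3
          refine (abs_sub_le _ (av (fun x => haar k i (lin y c j x) * haar k' i' (lin y' c' t x)) a ℓ) _).trans ?_
          exact add_le_add (h3.trans he0b) (hδ j hjm)
      _ = m * (10 * z * w + 6 * w) := by rw [Finset.sum_const, Finset.card_range, nsmul_eq_mul]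
  have h4z : (1 / 2 : ℝ) ^ (4 * K) = w * z ^ 8 := by
    have h1 : (1 / 2 : ℝ) ^ (4 * K) * z ^ 4 = 1 := by
      rw [hz, ← pow_mul, mul_comm K 4, ← mul_pow]
      norm_num
    have h3 : w * z ^ 8 * z ^ 4 = 1 := by
      rw [mul_assoc, ← pow_add]
      exact hwz
    exact mul_right_cancel₀ (show z ^ 4 ≠ 0 by positivity) (h1.trans h3.symm)
  rw [hsplit]
  have hfin : m * (10 * z * w + 6 * w) + K * w + (z ^ 2 + K) * w ≤ (1 / 2) ^ (4 * K) := by
    rw [h4z]
    have h1 : (m : ℝ) * (10 * z * w + 6 * w) ≤ z ^ 2 * (10 * z * w + 6 * w) := mul_le_mul_of_nonneg_right hmz (by positivity)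
    have h2 : (K : ℝ) * w ≤ z * w := mul_le_mul_of_nonneg_right hKz hw0.le
    have h3 : z ^ 2 * (10 * z * w + 6 * w) + z * w + (z ^ 2 + z) * w = w * (10 * z ^ 3 + 7 * z ^ 2 + 2 * z) := by ring
    have h4 : 10 * z ^ 3 + 7 * z ^ 2 + 2 * z ≤ z ^ 8 := by
      have h5 : (8 : ℝ) ≤ z ^ 3 := by
        calc (8 : ℝ) = 2 ^ 3 := by norm_num
          _ ≤ z ^ 3 := pow_le_pow_left₀ (by norm_num) hz2 3
      have h64 : (64 : ℝ) ≤ z ^ 3 * z ^ 3 := by
        calc (64 : ℝ) = 8 * 8 := by norm_num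
          _ ≤ z ^ 3 * z ^ 3 := mul_le_mul h5 h5 (by norm_num) (by positivity)
      have h32 : (32 : ℝ) ≤ z ^ 3 * z ^ 2 := by
        have h6 : (4 : ℝ) ≤ z ^ 2 := by
          calc (4 : ℝ) = 2 ^ 2 := by norm_num
            _ ≤ z ^ 2 := pow_le_pow_left₀ (by norm_num) hz2 2
        calc (32 : ℝ) = 8 * 4 := by norm_num
          _ ≤ z ^ 3 * z ^ 2 := mul_le_mul h5 h6 (by norm_num) (by positivity)
      have h128 : (128 : ℝ) ≤ z ^ 3 * z ^ 3 * z := by
        calc (128 : ℝ) = 64 * 2 := by norm_num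
          _ ≤ z ^ 3 * z ^ 3 * z := mul_le_mul h64 hz2 (by norm_num) (by positivity)
      have i1 : 32 * z ^ 3 ≤ z ^ 8 := by
        calc 32 * z ^ 3 ≤ (z ^ 3 * z ^ 2) * z ^ 3 := mul_le_mul_of_nonneg_right h32 (by positivity)
          _ = z ^ 8 := by ring
      have i2 : 64 * z ^ 2 ≤ z ^ 8 := by
        calc 64 * z ^ 2 ≤ (z ^ 3 * z ^ 3) * z ^ 2 := mul_le_mul_of_nonneg_right h64 (by positivity)
          _ = z ^ 8 := by ring
      have i3 : 128 * z ≤ z ^ 8 := by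
        calc 128 * z ≤ (z ^ 3 * z ^ 3 * z) * z := mul_le_mul_of_nonneg_right h128 (by positivity)
          _ = z ^ 8 := by ring
      have i0 : 0 < z ^ 3 := by positivity
      have i00 : 0 < z ^ 2 := by positivity
      linarith
    have h5 := mul_le_mul_of_nonneg_left h4 hw0.le
    linarith
  refine le_trans ?_ hfin
  set S1 := ∑ j ∈ Finset.range m, (∑ b ∈ Finset.range B, A (lin y c) k i j (a + b * (ℓ / B)) (ℓ / B) *
        A (lin y' c') k' i' t (a + b * (ℓ / B)) (ℓ / B)) / B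
  set S2 := (∑ b ∈ Finset.range B, (M (lin y c) k i (a + b * (ℓ / B)) (ℓ / B) -
        ∑ j ∈ Finset.range m, A (lin y c) k i j (a + b * (ℓ / B)) (ℓ / B)) *
          A (lin y' c') k' i' t (a + b * (ℓ / B)) (ℓ / B)) / B
  set S3 := M (lin y c) k i a ℓ * A (lin y' c') k' i' t a ℓ
  set D := ∑ j ∈ Finset.range m, δ j
  have h1 : S1 + S2 - S3 - D = (S1 - D) + S2 - S3 := by ring
  rw [h1]
  calc |(S1 - D) + S2 - S3| ≤ |(S1 - D) + S2| + |S3| := abs_sub _ _
    _ ≤ |S1 - D| + |S2| + |S3| := by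
        have := abs_add_le (S1 - D) S2
        linarith
    _ ≤ _ := by linarith

theorem pair_corr3 {y' c' : ℕ → ℝ} (hy : Geo y β) (hy' : ∀ j, 0 < y' j) {K n L r t Q₀ B : ℕ} {ε a ℓ : ℝ} (hK : 1 ≤ K) (hC : β / (β - 1) ≤ K)
    (hr : (2 : ℝ) ^ (12 * K) ≤ β ^ r) (hℓ : 0 < ℓ) (hn : 1 ≤ y n * ℓ) (hB : (2 : ℝ) ^ (12 * K) ≤ B) (hn' : 1 ≤ y (n + L) * (ℓ / B))
    (hnL : n + L + r ≤ 2 ^ (2 * K)) (hε0 : 0 ≤ ε) (hε : ε ≤ (1 / 2) ^ (12 * K)) (ht1 : ((Q₀ : ℝ) + 1) * 2 ^ (24 * K) ≤ y' t * ℓ)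
    (ht2 : y' t * (ℓ / B) ≤ 2 * (1 / 2) ^ (12 * K))
    (hnear : ∀ j < n + L + r, (1 / 2 : ℝ) ^ (12 * K) < y j / y' t → y j / y' t < 2 ^ (12 * K) →
      (y j ≤ y' t ∧ EqA (y' t / y j) Q₀ ε) ∨ (y' t ≤ y j ∧ EqA (y j / y' t) Q₀ ε))
    {k i k' i' : ℕ} (hk : k < K) (hi : i < 2 ^ k) (hk' : k' < K) (hi' : i' < 2 ^ k') :
    |(∑ b ∈ Finset.range B, (M (lin y c) k i (a + b * (ℓ / B)) (ℓ / B) - M (lin y c) k i a ℓ) *
        A (lin y' c') k' i' t (a + b * (ℓ / B)) (ℓ / B)) / B| ≤ (1 / 2) ^ (4 * K) := by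
  have h := pair_gen (c := c) (c' := c') (a := a) (k := k) (i := i) (i' := i') hy hy' hK hC hr hℓ hn hB hn' hnL ht1 ht2 hk' (fun _ => 0)
    (fun j hj => by
      rw [sub_zero]
      exact corr_ne (hy.pos j) (hy' t) hℓ hε0 hε ht1 (hnear j hj) k i k' i' (c j) (c' t))
  rwa [Finset.sum_const_zero, sub_zero] at h

/-- the same for one sequence: the main term appears -/
theorem pair_corr_same (hy : Geo y β) {K n L r t Q₀ B : ℕ} {ε a ℓ : ℝ} (hK : 1 ≤ K) (hC : β / (β - 1) ≤ K)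
    (hr : (2 : ℝ) ^ (12 * K) ≤ β ^ r) (hℓ : 0 < ℓ) (hn : 1 ≤ y n * ℓ) (hB : (2 : ℝ) ^ (12 * K) ≤ B) (hn' : 1 ≤ y (n + L) * (ℓ / B))
    (hnL : n + L + r ≤ 2 ^ (2 * K)) (hε0 : 0 ≤ ε) (hε : ε ≤ (1 / 2) ^ (12 * K)) (ht1 : ((Q₀ : ℝ) + 1) * 2 ^ (24 * K) ≤ y t * ℓ)
    (ht2 : y t * (ℓ / B) ≤ 2 * (1 / 2) ^ (12 * K))
    (hnear : ∀ j < n + L + r, j ≠ t → (1 / 2 : ℝ) ^ (12 * K) < y j / y t → y j / y t < 2 ^ (12 * K) →
      (y j ≤ y t ∧ EqA (y t / y j) Q₀ ε) ∨ (y t ≤ y j ∧ EqA (y j / y t) Q₀ ε))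
    {k i k' i' : ℕ} (hk : k < K) (hi : i < 2 ^ k) (hk' : k' < K) (hi' : i' < 2 ^ k') :
    |(∑ b ∈ Finset.range B, (M (lin y c) k i (a + b * (ℓ / B)) (ℓ / B) - M (lin y c) k i a ℓ) *
        A (lin y c) k' i' t (a + b * (ℓ / B)) (ℓ / B)) / B - (if k = k' ∧ i = i' then (1 / 2) ^ k else 0)| ≤ (1 / 2) ^ (4 * K) := by
  have hBpos : (0 : ℝ) < B := lt_of_lt_of_le (by positivity) hB
  have hℓB : 0 < ℓ / B := by positivity
  -- `t < n + L`
  have htn : t < n + L := by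
    by_contra hcon
    have h1 := geo_mono hy (not_lt.1 hcon)
    have h2 : 1 ≤ y t * (ℓ / B) := hn'.trans (mul_le_mul_of_nonneg_right h1 hℓB.le)
    have h3 : (2 : ℝ) * (1 / 2) ^ (12 * K) ≤ 2 * (1 / 2) ^ 12 := by
      have : (1 / 2 : ℝ) ^ (12 * K) ≤ (1 / 2) ^ 12 := pow_le_pow_of_le_one (by norm_num) (by norm_num) (by omega)
      linarith
    have h4 : (2 : ℝ) * (1 / 2) ^ 12 < 1 := by norm_num
    linarith
  have h := pair_gen (c := c) (c' := c) (a := a) (k := k) (i := i) (i' := i') hy hy.pos hK hC hr hℓ hn hB hn' hnL ht1 ht2 hk'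
    (fun j => if j = t then (if k = k' ∧ i = i' then (1 / 2 : ℝ) ^ k else 0) else 0)
    (fun j hj => by
      by_cases hjt : j = t
      · rw [if_pos hjt]
        subst hjt
        exact corr_eq (hy.pos j) hℓ ht1 hi hi' (c j)
      · rw [if_neg hjt, sub_zero]
        exact corr_ne (hy.pos j) (hy.pos t) hℓ hε0 hε ht1 (hnear j hj hjt) k i k' i' (c j) (c t))
  rw [Finset.sum_ite_eq' (Finset.range (n + L + r)) t, if_pos (Finset.mem_range.2 (by omega))] at h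
  exact h

end Pool.Agent.Helper65.LD3
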