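import Pool.Agent.Helper5.LD.GA
import Pool.Agent.Helper23.LD.KR

/-!
# LD3: correlation of two Haar functions at two arbitrary frequencies
-/

set_option autoImplicit false

namespace Pool.Agent.Helper65.LD3

open Pool.Agent.Helper41.LD Pool.Agent.Helper5.LD
open Pool.Agent.Helper23.LD (kron)

/-- `α` and `β` are separated: no good rational relation of height at most `H` -/
def Sep (H : ℕ) (η α β : ℝ) : Prop :=
  ∀ q p : ℕ, 1 ≤ q → q ≤ H → 1 ≤ p → p ≤ H → η * max α β ≤ |q * α - p * β|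

theorem Sep.symm {H : ℕ} {η α β : ℝ} (h : Sep H η α β) : Sep H η β α := by
  intro q p hq hqH hp hpH
  rw [max_comm, abs_sub_comm]
  exact h p q hp hpH hq hqH

theorem Sep.mono {H H' : ℕ} {η η' α β : ℝ} (h : Sep H η α β) (hH : H' ≤ H) (hη : η' ≤ η) (hα : 0 ≤ α) : Sep H' η' α β := by
  intro q p hq hqH hp hpH
  refine le_trans ?_ (h q p hq (hqH.trans hH) hp (hpH.trans hH))
  exact mul_le_mul_of_nonneg_right hη (le_trans hα (le_max_left _ _))

/-- the case `β ≤ α ≤ 2^(12K) β` -/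
theorem cross_mid {K : ℕ} (hK : 1 ≤ K) {α β η : ℝ} (hβ : 0 < β) (hη : 0 < η) (hη1 : η ≤ 1) (hs : Sep (2 ^ (28 * K)) η α β)
    (h1 : β ≤ α) (h2 : α ≤ 2 ^ (12 * K) * β) {a ℓ : ℝ} (hℓ : 0 < ℓ) (hbig : 2 ^ (12 * K + 5) ≤ η * (β * ℓ))
    (k i k' i' : ℕ) (c d : ℝ) :
    |av (fun x => haar k i (β * x + d) * haar k' i' (α * x + c)) a ℓ| ≤ 6 * (1 / 2) ^ (12 * K) := by
  set γ : ℝ := α / β with hγ
  have hα0 : 0 < α := lt_of_lt_of_le hβ h1
  have hγ1 : 1 ≤ γ := (one_le_div hβ).2 h1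
  have hγ2 : γ ≤ 2 ^ (12 * K) := by
    rw [hγ, div_le_iff₀ hβ]
    exact h2
  have hαβ : α = β * γ := by rw [hγ]; field_simp
  set H : ℕ := 2 ^ (12 * K + 3) with hH
  have hH1 : 1 ≤ H := Nat.one_le_two_pow
  have hH0 : (0 : ℝ) < H := by exact_mod_cast hH1
  have hHr : (H : ℝ) = 2 ^ (12 * K + 3) := by rw [hH]; push_cast; rfl
  set X : ℕ := ⌈1 / η⌉₊ with hX
  have hX1 : 1 ≤ X := Nat.one_le_ceil_iff.2 (by positivity)
  have hXl : 1 / η ≤ X := Nat.le_ceil _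
  have hXu : (X : ℝ) ≤ 2 * (1 / η) := by
    have h3 := (Nat.ceil_lt_add_one (show (0 : ℝ) ≤ 1 / η by positivity)).le
    have h4 : (1 : ℝ) ≤ 1 / η := (one_le_div hη).2 hη1
    linarith
  have hgen : ∀ q : ℕ, 1 ≤ q → q ≤ H → ∀ p : ℤ, 1 / ((X : ℝ) + 1) < |q * γ - p| := by
    intro q hq hqH p
    have hq1 : (1 : ℝ) ≤ q := by exact_mod_cast hq
    have hX0 : 1 / ((X : ℝ) + 1) < η := by
      rw [div_lt_iff₀ (by positivity)]
      have h5 : 1 ≤ η * X := by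
        calc (1 : ℝ) = η * (1 / η) := by field_simp
          _ ≤ η * X := mul_le_mul_of_nonneg_left hXl hη.le
      nlinarith
    rcases le_or_gt p 0 with hp | hp
    · have h6 : (p : ℝ) ≤ 0 := by exact_mod_cast hp
      have h7 : (1 : ℝ) ≤ q * γ - p := by nlinarith
      rw [abs_of_nonneg (by linarith)]
      linarith
    · obtain ⟨p', rfl⟩ : ∃ p' : ℕ, p = (p' : ℤ) := ⟨p.toNat, (Int.toNat_of_nonneg hp.le).symm⟩
      have hp' : 1 ≤ p' := by exact_mod_cast hp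
      push_cast
      rcases le_or_gt p' (2 ^ (28 * K)) with h8 | h8
      · have hqH' : q ≤ 2 ^ (28 * K) := hqH.trans (Nat.pow_le_pow_right (by norm_num) (by omega))
        have h9 := hs q p' hq hqH' hp' h8
        rw [max_eq_left h1] at h9
        have h10 : |q * γ - p'| = |q * α - p' * β| / β := by
          rw [hαβ, show (q : ℝ) * (β * γ) - p' * β = (q * γ - p') * β by ring, abs_mul, abs_of_pos hβ]
          field_simp
        rw [h10]
        have h11 : η ≤ |q * α - p' * β| / β := by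
          rw [le_div_iff₀ hβ]
          exact (mul_le_mul_of_nonneg_left h1 hη.le).trans h9
        linarith
      · -- `p'` too large
        have h8' : (2 : ℝ) ^ (28 * K) + 1 ≤ p' := by exact_mod_cast h8
        have h10 : (q : ℝ) * γ ≤ 2 ^ (12 * K + 3) * 2 ^ (12 * K) := by
          have : (q : ℝ) ≤ 2 ^ (12 * K + 3) := by exact_mod_cast hqH
          gcongr
        have h11 : (2 : ℝ) ^ (12 * K + 3) * 2 ^ (12 * K) ≤ 2 ^ (28 * K) := by
          rw [← pow_add]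
          exact pow_le_pow_right₀ (by norm_num) (by omega)
        have h14 : (1 : ℝ) ≤ |q * γ - p'| := by
          rw [abs_sub_comm]
          refine le_trans ?_ (le_abs_self _)
          linarith
        linarith
  have hE : Equi γ 1 (X * H) (5 / H) := by
    intro e he he1 Q hQ x u v hu huv hv
    obtain rfl : e = 1 := by omega
    rw [pow_one]
    refine (kron (α := γ) hH1 hX1 hgen Q x hu huv hv).trans ?_
    have h5 : (X : ℝ) ≤ Q / H := by
      rw [le_div_iff₀ hH0]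
      exact_mod_cast hQ
    have h6 : 5 / (H : ℝ) * Q = 4 * (Q / H) + Q / H := by ring
    rw [h6]
    linarith
  have hbig' : ((X * H : ℕ) : ℝ) + 1 ≤ β * (a + ℓ - a) := by
    rw [add_sub_cancel_left]
    have h3 : ((X * H : ℕ) : ℝ) + 1 ≤ 2 * (X * H) := by
      have : (1 : ℝ) ≤ X * H := by exact_mod_cast Nat.mul_pos hX1 hH1
      push_cast
      linarith
    have h4 : 2 * ((X : ℝ) * H) ≤ 2 ^ (12 * K + 5) / η := by
      rw [hHr, pow_add 2 (12 * K) 5, pow_add 2 (12 * K) 3]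
      have : (X : ℝ) * (2 ^ (12 * K) * 2 ^ 3) ≤ 2 * (1 / η) * (2 ^ (12 * K) * 2 ^ 3) := by gcongr
      calc 2 * ((X : ℝ) * (2 ^ (12 * K) * 2 ^ 3)) ≤ 2 * (2 * (1 / η) * (2 ^ (12 * K) * 2 ^ 3)) := by linarith
        _ = 2 ^ (12 * K) * 2 ^ 5 / η := by ring
    have h5 : 2 ^ (12 * K + 5) / η ≤ β * ℓ := by
      rw [div_le_iff₀ hη]
      linarith
    linarith
  have hmain := pair_equi hE (by positivity) (le_refl 1) (le_refl 1) hβ k i k' i' c d a (a + ℓ) hbig'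
  rw [pow_one, ← hαβ, add_sub_cancel_left] at hmain
  rw [av, abs_div, abs_of_pos hℓ, div_le_iff₀ hℓ]
  refine hmain.trans ?_
  have h3 : 5 / (H : ℝ) ≤ (1 / 2) ^ (12 * K) := by
    rw [hHr, pow_add, div_le_iff₀ (by positivity)]
    have h4 : (1 / 2 : ℝ) ^ (12 * K) * 2 ^ (12 * K) = 1 := by rw [← mul_pow]; norm_num
    calc (5 : ℝ) ≤ 1 * 2 ^ 3 := by norm_num
      _ = (1 / 2 : ℝ) ^ (12 * K) * (2 ^ (12 * K) * 2 ^ 3) := by rw [← mul_assoc, h4]
  have h4 : 1 / β ≤ (1 / 2) ^ (12 * K) * ℓ := by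
    rw [div_le_iff₀ hβ]
    have h5 : (2 : ℝ) ^ (12 * K) ≤ β * ℓ := by
      have h6 : η * (β * ℓ) ≤ 1 * (β * ℓ) := mul_le_mul_of_nonneg_right hη1 (by positivity)
      have h7 : (2 : ℝ) ^ (12 * K) ≤ 2 ^ (12 * K + 5) := pow_le_pow_right₀ (by norm_num) (by omega)
      linarith
    have h8 : (1 / 2 : ℝ) ^ (12 * K) * 2 ^ (12 * K) = 1 := by rw [← mul_pow]; norm_num
    calc (1 : ℝ) = (1 / 2 : ℝ) ^ (12 * K) * 2 ^ (12 * K) := h8.symm
      _ ≤ (1 / 2 : ℝ) ^ (12 * K) * (β * ℓ) := mul_le_mul_of_nonneg_left h5 (by positivity)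
      _ = (1 / 2) ^ (12 * K) * ℓ * β := by ring
  have h5 : 2 * (5 / (H : ℝ)) * ℓ ≤ 2 * (1 / 2) ^ (12 * K) * ℓ := by gcongr
  have h6 : 0 ≤ (1 / 2 : ℝ) ^ (12 * K) * ℓ := by positivity
  linarith

/-- the case of two frequencies far apart -/
theorem cross_far {K : ℕ} {α β : ℝ} (hα : 0 < α) (hβ : 0 < β) (h2 : 2 ^ (12 * K) * β ≤ α) {a ℓ : ℝ} (hℓ : 0 < ℓ)
    (hbig : 2 ^ (12 * K) ≤ α * ℓ) (k i k' i' : ℕ) (c d : ℝ) :
    |av (fun x => haar k i (β * x + d) * haar k' i' (α * x + c)) a ℓ| ≤ 6 * (1 / 2) ^ (12 * K) := by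
  have h1 := pair_piece hα hβ k i k' i' c d a (a + ℓ) (by linarith)
  rw [add_sub_cancel_left] at h1
  rw [av, abs_div, abs_of_pos hℓ, div_le_iff₀ hℓ]
  refine h1.trans ?_
  have h8 : (1 / 2 : ℝ) ^ (12 * K) * 2 ^ (12 * K) = 1 := by rw [← mul_pow]; norm_num
  rw [div_le_iff₀ hα]
  have h3 : β * ℓ ≤ (1 / 2) ^ (12 * K) * ℓ * α := by
    calc β * ℓ = (1 / 2 : ℝ) ^ (12 * K) * 2 ^ (12 * K) * β * ℓ := by rw [h8, one_mul]
      _ = (1 / 2 : ℝ) ^ (12 * K) * (2 ^ (12 * K) * β) * ℓ := by ring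
      _ ≤ (1 / 2 : ℝ) ^ (12 * K) * α * ℓ := by gcongr
      _ = _ := by ring
  have h4 : 1 ≤ (1 / 2) ^ (12 * K) * ℓ * α := by
    calc (1 : ℝ) = (1 / 2 : ℝ) ^ (12 * K) * 2 ^ (12 * K) := h8.symm
      _ ≤ (1 / 2 : ℝ) ^ (12 * K) * (α * ℓ) := by gcongr
      _ = _ := by ring
  nlinarith

/-- correlation of two Haar functions at two separated frequencies -/
theorem cross {K : ℕ} (hK : 1 ≤ K) {α β η : ℝ} (hα : 0 < α) (hβ : 0 < β) (hη : 0 < η) (hη1 : η ≤ 1)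
    (hs : Sep (2 ^ (28 * K)) η α β) {a ℓ : ℝ} (hℓ : 0 < ℓ) (hbig : 2 ^ (24 * K + 5) ≤ η * (α * ℓ))
    (k i k' i' : ℕ) (c d : ℝ) :
    |av (fun x => haar k i (β * x + d) * haar k' i' (α * x + c)) a ℓ| ≤ 6 * (1 / 2) ^ (12 * K) := by
  have hz : (1 : ℝ) ≤ 2 ^ (12 * K) := one_le_pow₀ (by norm_num)
  have hz0 : (0 : ℝ) < 2 ^ (12 * K) := by positivity
  have hcomm : ∀ x : ℝ, haar k i (β * x + d) * haar k' i' (α * x + c) = haar k' i' (α * x + c) * haar k i (β * x + d) :=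
    fun x => mul_comm _ _
  have e24 : (2 : ℝ) ^ (24 * K + 5) = 2 ^ (12 * K) * 2 ^ (12 * K + 5) := by
    rw [← pow_add]
    congr 1
    ring
  have hαℓ : (2 : ℝ) ^ (24 * K + 5) ≤ α * ℓ := by
    have h6 : η * (α * ℓ) ≤ 1 * (α * ℓ) := mul_le_mul_of_nonneg_right hη1 (by positivity)
    linarith
  have h12 : (2 : ℝ) ^ (12 * K) ≤ 2 ^ (24 * K + 5) := pow_le_pow_right₀ (by norm_num) (by omega)
  rcases le_total β α with h1 | h1
  · rcases le_or_gt α (2 ^ (12 * K) * β) with h2 | h2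
    · refine cross_mid hK hβ hη hη1 hs h1 h2 hℓ ?_ k i k' i' c d
      have h3 : 2 ^ (12 * K) * 2 ^ (12 * K + 5) ≤ 2 ^ (12 * K) * (η * (β * ℓ)) := by
        rw [← e24]
        refine hbig.trans ?_
        calc η * (α * ℓ) ≤ η * (2 ^ (12 * K) * β * ℓ) := by gcongr
          _ = _ := by ring
      exact le_of_mul_le_mul_left h3 hz0
    · exact cross_far hα hβ h2.le hℓ (h12.trans hαℓ) k i k' i' c d
  · simp only [hcomm]
    rcases le_or_gt β (2 ^ (12 * K) * α) with h2 | h2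
    · refine cross_mid hK hα hη hη1 hs.symm h1 h2 hℓ ?_ k' i' k i d c
      refine le_trans ?_ hbig
      exact pow_le_pow_right₀ (by norm_num) (by omega)
    · refine cross_far hβ hα h2.le hℓ ?_ k' i' k i d c
      refine (h12.trans hαℓ).trans ?_
      gcongr

end Pool.Agent.Helper65.LD3
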